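import Pool.Agent.Helper76.TB.Goals
import Pool.Agent.Helper60.BFT.Core

/-!
# Project TB, packet U-TRANS (helper85)
-/

set_option autoImplicit false

open Finset

namespace Pool.Agent.Helper85.TB

open Pool.Agent.Helper76.TB
open Pool.Agent.Helper90.Twin (Ps Gz Sz XX yy Xz avgI errB EE TT)
open Pool.Agent.Helper60.BFT (XA yA Av lg)

/-- the averaged sum -/
noncomputable def LL (r Z N : ℕ) (A : ℕ → ℕ) (F : (ℕ → ℝ) → ℕ → ℝ) : ℝ :=
  Av (lg r Z) (fun B => ∑ t ∈ range N, F (XA Z B) t) A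

/-- the full-period average -/
noncomputable def MM (Z : ℕ) (F : (ℕ → ℝ) → ℕ → ℝ) : ℝ :=
  (∑ t ∈ range (∏ p ∈ Ps Z, p), F (Xz Z) t) / ((∏ p ∈ Ps Z, p : ℕ) : ℝ)

/-- values in `[0, 1]` -/
def Good (X : ℕ → ℝ) : Prop := ∀ t, 0 ≤ X t ∧ X t ≤ 1

theorem good_XA (Z : ℕ) (B : ℕ → ℕ) : Good (XA Z B) := fun t => by
  rcases Pool.Agent.Helper60.BFT.XA_zero_one Z B t with h | h <;> rw [h] <;> norm_num

theorem good_Xz (Z : ℕ) : Good (Xz Z) := fun t =>
  ⟨(Pool.Agent.Helper90.Twin.sieveSys Z).XX_nonneg t,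
    (Pool.Agent.Helper90.Twin.sieveSys Z).XX_le_one t⟩

theorem LL_sum {ι : Type} (r Z N : ℕ) (A : ℕ → ℕ) (S : Finset ι) (w : ι → ℝ)
    (F : ι → (ℕ → ℝ) → ℕ → ℝ) :
    LL r Z N A (fun X t => ∑ i ∈ S, w i * F i X t) = ∑ i ∈ S, w i * LL r Z N A (F i) := by
  unfold LL
  have h : (fun B => ∑ t ∈ range N, ∑ i ∈ S, w i * F i (XA Z B) t)
      = fun B => ∑ i ∈ S, w i * ∑ t ∈ range N, F i (XA Z B) t := by
    funext B
    rw [Finset.sum_comm]
    exact Finset.sum_congr rfl fun i _ => (Finset.mul_sum _ _ _).symm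
  rw [h, Pool.Agent.Helper60.BFT.Av_sum]
  exact Finset.sum_congr rfl fun i _ => Pool.Agent.Helper60.BFT.Av_mul_left _ _ _ _

theorem MM_sum {ι : Type} (Z : ℕ) (S : Finset ι) (w : ι → ℝ) (F : ι → (ℕ → ℝ) → ℕ → ℝ) :
    MM Z (fun X t => ∑ i ∈ S, w i * F i X t) = ∑ i ∈ S, w i * MM Z (F i) := by
  unfold MM
  rw [Finset.sum_comm, Finset.sum_div]
  refine Finset.sum_congr rfl fun i _ => ?_
  rw [← Finset.mul_sum, mul_div_assoc]

theorem LL_sub (r Z N : ℕ) (A : ℕ → ℕ) (F G : (ℕ → ℝ) → ℕ → ℝ) :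
    LL r Z N A (fun X t => F X t - G X t) = LL r Z N A F - LL r Z N A G := by
  unfold LL
  rw [← Pool.Agent.Helper60.BFT.Av_sub]
  simp only [Finset.sum_sub_distrib]

theorem MM_sub (Z : ℕ) (F G : (ℕ → ℝ) → ℕ → ℝ) :
    MM Z (fun X t => F X t - G X t) = MM Z F - MM Z G := by
  unfold MM
  rw [Finset.sum_sub_distrib, sub_div]

theorem LL_abs (r Z N : ℕ) (A : ℕ → ℕ) (F G : (ℕ → ℝ) → ℕ → ℝ)
    (h : ∀ X, Good X → ∀ t, |F X t| ≤ G X t) : |LL r Z N A F| ≤ LL r Z N A G := by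
  unfold LL
  refine (Pool.Agent.Helper60.BFT.abs_Av_le _ _ _).trans ?_
  refine Pool.Agent.Helper60.BFT.Av_mono _ _ _ _ fun B => ?_
  refine (Finset.abs_sum_le_sum_abs _ _).trans ?_
  exact Finset.sum_le_sum fun t _ => h _ (good_XA Z B) t

theorem Q_pos (Z : ℕ) : (0 : ℝ) < ((∏ p ∈ Ps Z, p : ℕ) : ℝ) :=
  (Pool.Agent.Helper90.Twin.sieveSys Z).Q_pos

theorem MM_abs (Z : ℕ) (F G : (ℕ → ℝ) → ℕ → ℝ)
    (h : ∀ X, Good X → ∀ t, |F X t| ≤ G X t) : |MM Z F| ≤ MM Z G := by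
  unfold MM
  rw [abs_div, abs_of_pos (Q_pos Z)]
  refine div_le_div_of_nonneg_right ?_ (Q_pos Z).le
  refine (Finset.abs_sum_le_sum_abs _ _).trans ?_
  exact Finset.sum_le_sum fun t _ => h _ (good_Xz Z) t

theorem MM_mono (Z : ℕ) (F G : (ℕ → ℝ) → ℕ → ℝ)
    (h : ∀ X, Good X → ∀ t, F X t ≤ G X t) : MM Z F ≤ MM Z G := by
  unfold MM
  refine div_le_div_of_nonneg_right ?_ (Q_pos Z).le
  exact Finset.sum_le_sum fun t _ => h _ (good_Xz Z) t

/-- the sums of order `j` -/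
noncomputable def SJ (c : ℕ → ℝ) (H j : ℕ) (X : ℕ → ℝ) (t : ℕ) : ℝ :=
  X t * ∑ g ∈ Icc 1 H, c g * X (t + g) * EE (Ioo 0 g) (fun i => X (t + i)) j

/-- index set -/
def IS (H j : ℕ) : Finset (Σ _ : ℕ, Finset ℕ) :=
  (Icc 1 H).sigma fun g => (Ioo 0 g).powersetCard j

theorem SJ_eq (c : ℕ → ℝ) (H j : ℕ) : SJ c H j = fun X t => ∑ a ∈ IS H j,
    c a.1 * ∏ i ∈ insert 0 (insert a.1 a.2), X (t + i) := by
  funext X t
  unfold SJ IS
  rw [Finset.sum_sigma, Finset.mul_sum]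
  refine Finset.sum_congr rfl fun g hg => ?_
  rw [Finset.mem_Icc] at hg
  unfold EE
  rw [Finset.mul_sum, Finset.mul_sum]
  refine Finset.sum_congr rfl fun J hJ => ?_
  rw [Pool.Agent.Helper90.Twin.prod_insert_two (by omega) (Finset.mem_powersetCard.1 hJ).1]
  ring

theorem card_IS (H j : ℕ) : ((IS H j).card : ℝ) ≤ (H : ℝ) ^ (j + 1) := by
  unfold IS
  rw [Finset.card_sigma]
  push_cast
  calc ∑ g ∈ Icc 1 H, (((Ioo 0 g).powersetCard j).card : ℝ) ≤ ∑ g ∈ Icc 1 H, (H : ℝ) ^ j :=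
        Finset.sum_le_sum fun g hg =>
          Pool.Agent.Helper90.Twin.card_powersetCard_Ioo_le (Finset.mem_Icc.1 hg).2
    _ = (H : ℝ) ^ (j + 1) := by
        rw [Finset.sum_const, Nat.card_Icc, nsmul_eq_mul, Nat.add_sub_cancel]
        ring

/-- transfer of the sums of order `j` -/
theorem SJ_transfer (h1 : CORRG) (r Z H j m N : ℕ) (A : ℕ → ℕ) (c : ℕ → ℝ) (hrZ : r ≤ Z)
    (hc : ∀ g, |c g| ≤ 1) :
    |LL r Z N A (SJ c H j) - N * MM Z (SJ c H j)|
      ≤ (H : ℝ) ^ (j + 1) * errB (Ps r) (j + 2) m N := by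
  rw [SJ_eq, LL_sum r Z N A (IS H j) (fun a => c a.1)
    (fun a X t => ∏ i ∈ insert 0 (insert a.1 a.2), X (t + i)),
    MM_sum Z (IS H j) (fun a => c a.1)
    (fun a X t => ∏ i ∈ insert 0 (insert a.1 a.2), X (t + i)), Finset.mul_sum,
    ← Finset.sum_sub_distrib]
  refine (Finset.abs_sum_le_sum_abs _ _).trans ?_
  have hE := Pool.Agent.Helper90.Twin.errB_nonneg (Ps r) (j + 2) m N
  calc _ ≤ ∑ a ∈ IS H j, errB (Ps r) (j + 2) m N := by
        refine Finset.sum_le_sum fun a ha => ?_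
        obtain ⟨ha1, ha2⟩ := Finset.mem_sigma.1 ha
        have h3 := h1.1 r Z hrZ (insert 0 (insert a.1 a.2)) A m N
        rw [Pool.Agent.Helper90.Twin.card_insert_two
          (by have := (Finset.mem_Icc.1 ha1).1; omega) ha2] at h3
        have e : c a.1 * LL r Z N A (fun X t => ∏ i ∈ insert 0 (insert a.1 a.2), X (t + i))
            - N * (c a.1 * MM Z (fun X t => ∏ i ∈ insert 0 (insert a.1 a.2), X (t + i)))
            = c a.1 * (LL r Z N A (fun X t => ∏ i ∈ insert 0 (insert a.1 a.2), X (t + i))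
              - N * MM Z (fun X t => ∏ i ∈ insert 0 (insert a.1 a.2), X (t + i))) := by ring
        rw [e, abs_mul]
        calc |c a.1| * |LL r Z N A (fun X t => ∏ i ∈ insert 0 (insert a.1 a.2), X (t + i))
              - N * MM Z (fun X t => ∏ i ∈ insert 0 (insert a.1 a.2), X (t + i))|
            ≤ 1 * errB (Ps r) (j + 2) m N :=
              mul_le_mul (hc _) h3 (abs_nonneg _) (by norm_num)
          _ = _ := one_mul _
    _ = ((IS H j).card : ℝ) * errB (Ps r) (j + 2) m N := by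
        rw [Finset.sum_const, nsmul_eq_mul]
    _ ≤ _ := mul_le_mul_of_nonneg_right (card_IS H j) hE

/-- inclusion-exclusion -/
theorem phi_bonf (c : ℕ → ℝ) (hc : ∀ g, |c g| ≤ 1) (H R : ℕ) (X : ℕ → ℝ) (hX : Good X) (t : ℕ) :
    |phi c X H t - ∑ j ∈ range R, (-1 : ℝ) ^ j * SJ c H j X t| ≤ SJ (fun _ => 1) H R X t := by
  have e : phi c X H t - ∑ j ∈ range R, (-1 : ℝ) ^ j * SJ c H j X t
      = X t * ∑ g ∈ Icc 1 H, c g * X (t + g) * (∏ i ∈ Ioo 0 g, (1 - X (t + i))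
        - TT (Ioo 0 g) (fun i => X (t + i)) R) := by
    unfold phi SJ TT
    have e1 : ∑ j ∈ range R, (-1 : ℝ) ^ j * (X t * ∑ g ∈ Icc 1 H, c g * X (t + g) *
        EE (Ioo 0 g) (fun i => X (t + i)) j) = X t * ∑ g ∈ Icc 1 H, c g * X (t + g) *
          ∑ j ∈ range R, (-1 : ℝ) ^ j * EE (Ioo 0 g) (fun i => X (t + i)) j := by
      simp only [Finset.mul_sum]
      rw [Finset.sum_comm]
      refine Finset.sum_congr rfl fun g _ => Finset.sum_congr rfl fun j _ => ?_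
      ring
    rw [e1, ← mul_sub, ← Finset.sum_sub_distrib]
    congr 1
    refine Finset.sum_congr rfl fun g _ => ?_
    ring
  rw [e, abs_mul, abs_of_nonneg (hX t).1]
  unfold SJ
  refine mul_le_mul_of_nonneg_left ?_ (hX t).1
  refine (Finset.abs_sum_le_sum_abs _ _).trans (Finset.sum_le_sum fun g _ => ?_)
  rw [abs_mul, abs_mul, abs_of_nonneg (hX (t + g)).1]
  have hb := Pool.Agent.Helper90.Twin.bonferroni_abs (s := Ioo 0 g) (a := fun i => X (t + i))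
    (fun i _ => (hX _).1) (fun i _ => (hX _).2) R
  exact mul_le_mul (mul_le_mul_of_nonneg_right (hc g) (hX (t + g)).1) hb (abs_nonneg _)
    (mul_nonneg zero_le_one (hX (t + g)).1)

theorem sum_EE_eq (x : ℕ → ℝ) (H R : ℕ) :
    ∑ g ∈ Icc 1 H, x g * EE (Ioo 0 g) x R = EE (Icc 1 H) x (R + 1) := by
  induction H with
  | zero =>
    unfold EE
    rw [Finset.powersetCard_eq_empty.2 (by simp)]
    simp
  | succ H ih =>
    have e1 : Icc 1 (H + 1) = insert (H + 1) (Icc 1 H) := by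
      ext y
      simp only [Finset.mem_Icc, Finset.mem_insert]
      omega
    have e2 : Ioo 0 (H + 1) = Icc 1 H := by
      ext y
      simp only [Finset.mem_Icc, Finset.mem_Ioo]
      omega
    have h3 : H + 1 ∉ Icc 1 H := by
      rw [Finset.mem_Icc]
      omega
    rw [e1, Finset.sum_insert h3, ih, Pool.Agent.Helper90.Twin.EE_insert h3, e2]
    ring

theorem U_le (H R : ℕ) (X : ℕ → ℝ) (hX : Good X) (t : ℕ) :
    SJ (fun _ => 1) H R X t ≤ ∑ J ∈ (Icc 1 H).powersetCard (R + 1), ∏ i ∈ J, X (t + i) := by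
  unfold SJ
  have e : ∑ g ∈ Icc 1 H, (1 : ℝ) * X (t + g) * EE (Ioo 0 g) (fun i => X (t + i)) R
      = EE (Icc 1 H) (fun i => X (t + i)) (R + 1) := by
    rw [← sum_EE_eq]
    exact Finset.sum_congr rfl fun g _ => by rw [one_mul]
  rw [e]
  have h0 := Pool.Agent.Helper90.Twin.EE_nonneg (s := Icc 1 H) (a := fun i => X (t + i))
    (fun i _ => (hX _).1) (R + 1)
  calc X t * EE (Icc 1 H) (fun i => X (t + i)) (R + 1)
      ≤ 1 * EE (Icc 1 H) (fun i => X (t + i)) (R + 1) := mul_le_mul_of_nonneg_right (hX t).2 h0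
    _ = _ := by rw [one_mul]; rfl

theorem trans (h1 : CORRG) (_h2 : INVG) : TRANSG := by
  intro r Z H R m N A c hrZ hH hc
  set E := errB (Ps r) (R + 2) m N with hE
  have hE0 : 0 ≤ E := Pool.Agent.Helper90.Twin.errB_nonneg _ _ _ _
  have hH1 : (1 : ℝ) ≤ H := by exact_mod_cast hH
  set P : (ℕ → ℝ) → ℕ → ℝ := fun X t => phi c X H t with hP
  set T : (ℕ → ℝ) → ℕ → ℝ := fun X t => ∑ j ∈ range R, (-1 : ℝ) ^ j * SJ c H j X t with hT
  set U : (ℕ → ℝ) → ℕ → ℝ := SJ (fun _ => 1) H R with hU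
  change |LL r Z N A P - N * MM Z P| ≤ _
  -- the tail
  have hU1 : |LL r Z N A U - N * MM Z U| ≤ (H : ℝ) ^ (R + 1) * E :=
    SJ_transfer h1 r Z H R m N A (fun _ => 1) hrZ (fun _ => by norm_num)
  have hLU : LL r Z N A U ≤ N * MM Z U + (H : ℝ) ^ (R + 1) * E := by
    have := (abs_le.1 hU1).2
    linarith
  have hMU : MM Z U ≤ TL Z H (R + 1) :=
    MM_mono Z U (fun X t => ∑ J ∈ (Icc 1 H).powersetCard (R + 1), ∏ i ∈ J, X (t + i))
      fun X hX t => U_le H R X hX t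
  have hd1 : |LL r Z N A P - LL r Z N A T| ≤ LL r Z N A U := by
    rw [← LL_sub]
    exact LL_abs r Z N A _ _ fun X hX t => phi_bonf c hc H R X hX t
  have hd2 : |MM Z P - MM Z T| ≤ MM Z U := by
    rw [← MM_sub]
    exact MM_abs Z _ _ fun X hX t => phi_bonf c hc H R X hX t
  have hd3 : |LL r Z N A T - N * MM Z T| ≤ R * ((H : ℝ) ^ (R + 1) * E) := by
    rw [hT, LL_sum r Z N A (range R) (fun j => (-1 : ℝ) ^ j) (fun j => SJ c H j),
      MM_sum Z (range R) (fun j => (-1 : ℝ) ^ j) (fun j => SJ c H j), Finset.mul_sum,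
      ← Finset.sum_sub_distrib]
    refine (Finset.abs_sum_le_sum_abs _ _).trans ?_
    calc _ ≤ ∑ j ∈ range R, (H : ℝ) ^ (R + 1) * E := by
          refine Finset.sum_le_sum fun j hj => ?_
          rw [Finset.mem_range] at hj
          have e : (-1 : ℝ) ^ j * LL r Z N A (SJ c H j) - N * ((-1 : ℝ) ^ j * MM Z (SJ c H j))
              = (-1 : ℝ) ^ j * (LL r Z N A (SJ c H j) - N * MM Z (SJ c H j)) := by ring
          rw [e, abs_mul, abs_pow, abs_neg, abs_one, one_pow, one_mul]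
          refine (SJ_transfer h1 r Z H j m N A c hrZ hc).trans ?_
          refine mul_le_mul (pow_le_pow_right₀ hH1 (by omega)) ?_
            (Pool.Agent.Helper90.Twin.errB_nonneg _ _ _ _) (by positivity)
          exact Pool.Agent.Helper90.Twin.errB_mono_card (Finset.Subset.refl _) (by omega) m N
      _ = R * ((H : ℝ) ^ (R + 1) * E) := by
          rw [Finset.sum_const, Finset.card_range, nsmul_eq_mul]
  have hN : (0 : ℝ) ≤ N := Nat.cast_nonneg _
  have hsum : LL r Z N A P - N * MM Z P = (LL r Z N A P - LL r Z N A T)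
      + (LL r Z N A T - N * MM Z T) + -(N * (MM Z P - MM Z T)) := by ring
  rw [hsum]
  have h3 : |-(N * (MM Z P - MM Z T))| ≤ N * MM Z U := by
    rw [abs_neg, abs_mul, Nat.abs_cast]
    exact mul_le_mul_of_nonneg_left hd2 hN
  have h4 := abs_add_le ((LL r Z N A P - LL r Z N A T) + (LL r Z N A T - N * MM Z T))
    (-(N * (MM Z P - MM Z T)))
  have h5 := abs_add_le (LL r Z N A P - LL r Z N A T) (LL r Z N A T - N * MM Z T)
  have h6 : (N : ℝ) * MM Z U ≤ N * TL Z H (R + 1) := mul_le_mul_of_nonneg_left hMU hN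
  have h7 : ((R : ℝ) + 1) * (H : ℝ) ^ (R + 1) * E
      = R * ((H : ℝ) ^ (R + 1) * E) + (H : ℝ) ^ (R + 1) * E := by ring
  rw [h7]
  linarith

end Pool.Agent.Helper85.TB
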